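import Pool.Agent.Lib.MP_0bd9b3_al.Main

namespace Pool.Agent.Results.MP_0bd9b3_al.PowerSums

open Pool.Agent.Lib.MP_0bd9b3_al

theorem result (R : Type*) [NonUnitalRing R] [Fintype R] (d k : ℕ) (hd : 1 < d) (hk : 1 ≤ k) :
    (¬ (d = 2 ∧ (Fintype.card R % 4 = 2 ∧ 1 < k ∧ (k % 6 = 5 ∨ k % 6 = 0 ∨ k % 6 = 1)) ∧
          ∃ e : R, e ≠ 0 ∧ e + e = 0 ∧ e * e = e) →
        ∑ A : Matrix (Fin d) (Fin d) R, pw A k = 0) ∧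
    (∀ e : R, d = 2 → (Fintype.card R % 4 = 2 ∧ 1 < k ∧ (k % 6 = 5 ∨ k % 6 = 0 ∨ k % 6 = 1)) →
        e ≠ 0 → e + e = 0 → e * e = e →
        ∑ A : Matrix (Fin d) (Fin d) R, pw A k = Matrix.diagonal fun _ => e) :=
  main hd k hk

end Pool.Agent.Results.MP_0bd9b3_al.PowerSums
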