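import Pool.Agent.Lib.MP_0bd9b3_al.WordMain
import Pool.Agent.Lib.MP_0bd9b3_al.WordTwo

namespace Pool.Agent.Results.MP_0bd9b3_al.WordSums

/-- Sums of a noncommutative monomial `w` over all tuples of `d × d` matrices over a finite ring. -/
theorem result (R : Type*) [NonUnitalRing R] [Fintype R] (ι : Type*) [Fintype ι] [DecidableEq ι]
    (d : ℕ) (hd : 1 < d) (w : FreeSemigroup ι) :
    (¬ (d = 2 ∧ Fintype.card R % 4 = 2 ∧ (∃ e : R, e ≠ 0 ∧ e + e = 0 ∧ e * e = e) ∧
          ∑ A : ι → Matrix (Fin 2) (Fin 2) (ZMod 2), FreeSemigroup.lift A w = 1) →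
        ∑ A : ι → Matrix (Fin d) (Fin d) R, FreeSemigroup.lift A w = 0) ∧
    (∀ e : R, d = 2 → Fintype.card R % 4 = 2 → e ≠ 0 → e + e = 0 → e * e = e →
        ∑ A : ι → Matrix (Fin 2) (Fin 2) (ZMod 2), FreeSemigroup.lift A w = 1 →
        ∑ A : ι → Matrix (Fin d) (Fin d) R, FreeSemigroup.lift A w = Matrix.diagonal fun _ => e) :=
  Pool.Agent.Lib.MP_0bd9b3_al.wmain hd w

/-- Over `ℤ/2` and for `d = 2`, the sum of all words with `5` letters `x` and `18` letters `y`,
summed over all pairs of matrices, is the identity matrix and not `0`. -/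
theorem multidegree_five_eighteen :
    ∑ f ∈ (Finset.univ.filter fun f : Fin 23 → Bool =>
        (Finset.univ.filter fun k => f k = true).card = 5),
      ∑ A : Bool → Matrix (Fin 2) (Fin 2) (ZMod 2), (List.ofFn fun k => A (f k)).prod = 1 := by
  rw [Finset.sum_comm]
  exact Pool.Agent.Lib.MP_0bd9b3_al.degSum_five

end Pool.Agent.Results.MP_0bd9b3_al.WordSums
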